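import Pool.Agent.TH951.W.UB.Pl

/-!
# Rigidity: differential relations on a finite invariant set
-/

namespace Pool.Agent.TH951.W.UG

open Pool.Agent.TH951.W.UB Finset Polynomial

variable {k K : Type*} [Field k] [Field K] [Algebra k K]

/-- the coefficientwise derivative -/
noncomputable def cD (D : Derivation k K K) (f : K[X]) : K[X] := f.sum fun i a => monomial i (D a)

lemma cD_add (D : Derivation k K K) (f g : K[X]) : cD D (f + g) = cD D f + cD D g := by
  unfold cD
  apply Polynomial.sum_add_index
  · intro i
    simp
  · intro i a b
    simp

lemma cD_monomial (D : Derivation k K K) (n : ℕ) (a : K) :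
    cD D (monomial n a) = monomial n (D a) := by
  unfold cD
  rw [Polynomial.sum_monomial_index]
  simp

lemma cD_coeff (D : Derivation k K K) (f : K[X]) (i : ℕ) : (cD D f).coeff i = D (f.coeff i) := by
  induction f using Polynomial.induction_on' with
  | add p q hp hq => rw [cD_add, coeff_add, coeff_add, hp, hq, map_add]
  | monomial n a =>
    rw [cD_monomial, coeff_monomial, coeff_monomial]
    split_ifs
    · rfl
    · simp

lemma cD_natDegree (D : Derivation k K K) (f : K[X]) : (cD D f).natDegree ≤ f.natDegree := by
  rw [natDegree_le_iff_coeff_eq_zero]
  intro i hi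
  rw [cD_coeff, coeff_eq_zero_of_natDegree_lt hi, map_zero]

lemma D_eval (D : Derivation k K K) (f : K[X]) (x : K) :
    D (f.eval x) = (cD D f).eval x + f.derivative.eval x * D x := by
  induction f using Polynomial.induction_on' with
  | add p q hp hq =>
    rw [eval_add, map_add, hp, hq, cD_add, derivative_add, eval_add, eval_add]
    ring
  | monomial n a =>
    rw [cD_monomial, eval_monomial, eval_monomial, derivative_monomial, eval_monomial,
      Derivation.leibniz, Derivation.leibniz_pow]
    simp only [smul_eq_mul, nsmul_eq_mul]
    ring

end Pool.Agent.TH951.W.UG
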