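import Pool.Agent.TH951.W.UG.B3
import Pool.Agent.TH951.W.UG.B4
import Pool.Agent.TH951.W.UG.B5

/-!
# Non-degeneracy of the interpolation functionals
-/

namespace Pool.Agent.TH951.W.UG

open Pool.Agent.TH951.W.UB Finset Polynomial

variable {k K : Type*} [Field k] [Field K] [Algebra k K]

lemma prod_zero (Q : PlaceData k K) (S : Finset Q.Pl) (x : K) (hx : x ≠ 0)
    (hS : ∀ v, v ∉ S → Q.ord v x = 0) : ∑ v ∈ S, Q.wt v * Q.ord v x = 0 := by
  have h1 := Q.prod_formula x hx S fun v hv => (hS v hv).ge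
  have h2 := Q.prod_formula x⁻¹ (inv_ne_zero hx) S fun v hv => by
    rw [PlaceData.ord_inv hx, hS v hv]
    simp
  have h3 : ∑ v ∈ S, Q.wt v * Q.ord v x⁻¹ = -∑ v ∈ S, Q.wt v * Q.ord v x := by
    rw [← Finset.sum_neg_distrib]
    apply Finset.sum_congr rfl
    intro v _
    rw [PlaceData.ord_inv hx]
    ring
  linarith

/-- the vector of monomials -/
noncomputable def Phi (Q : PlaceData k K) (m : ℕ) (b z : K) : Fin (2 * m) → K := fun j =>
  (z - b) ^ (mu m j).1 * (Q.D (z - b)) ^ (mu m j).2.toNat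

lemma mu_fst_le (m : ℕ) (j : Fin (2 * m)) : (mu m j).1 ≤ m := by
  unfold mu
  split_ifs with h
  · exact h
  · have := j.2
    simp only
    omega

/-- Independence of the monomial vectors means that the determinant does not vanish. -/
lemma cdet_ne (Q : PlaceData k K) (m : ℕ) (z : Fin (2 * m) → K) (b : Fin (2 * m))
    (h : LinearIndependent K fun i => Phi Q m (z b) (z i)) : cdet Q m z b ≠ 0 := by
  have h1 : LinearIndependent K (Matrix.of fun i j => Phi Q m (z b) (z i) j).row := h
  rw [Matrix.linearIndependent_rows_iff_isUnit, Matrix.isUnit_iff_isUnit_det] at h1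
  have h2 : cdet Q m z b = (Matrix.of fun i j => Phi Q m (z b) (z i) j).det := by
    unfold cdet
    rw [← Matrix.det_transpose]
    rfl
  rw [h2]
  exact h1.ne_zero

end Pool.Agent.TH951.W.UG
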