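import Mathlib

/-!
# Ultrametric kernels are positive semidefinite
-/

namespace Pool.Agent.TH951.W.UG

open Finset

variable {ι : Type*}

/-- An ultrametric kernel with nonnegative values is positive semidefinite. -/
lemma psd (n : ℕ) : ∀ (s : Finset ι) (k : ι → ι → ℝ) (σ : ι → ℝ), s.card ≤ n →
    (∀ i j, k i j = k j i) → (∀ i j l, min (k i l) (k l j) ≤ k i j) →
    (∀ i ∈ s, ∀ j ∈ s, 0 ≤ k i j) →
    0 ≤ ∑ i ∈ s, ∑ j ∈ s, σ i * σ j * k i j := by
  classical
  induction n with
  | zero =>
    intro s k σ hc _ _ _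
    have : s = ∅ := Finset.card_eq_zero.mp (Nat.le_zero.mp hc)
    subst this
    simp
  | succ n ih =>
    intro s k σ hc hs hu h0
    rcases s.eq_empty_or_nonempty with rfl | hne
    · simp
    obtain ⟨⟨i₀, j₀⟩, hmem, hmin⟩ := Finset.exists_min_image (s ×ˢ s) (fun q => k q.1 q.2)
      (hne.product hne)
    rw [Finset.mem_product] at hmem
    have hmin' : ∀ i ∈ s, ∀ j ∈ s, k i₀ j₀ ≤ k i j := fun i hi j hj =>
      hmin (i, j) (Finset.mem_product.mpr ⟨hi, hj⟩)
    have hdiag : ∀ i j, k i j ≤ k i i := by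
      intro i j
      have := hu i i j
      rwa [hs j i, min_self] at this
    set c := k i₀ j₀ with hcdef
    have hc0 : 0 ≤ c := h0 _ hmem.1 _ hmem.2
    have hsplit : ∑ i ∈ s, ∑ j ∈ s, σ i * σ j * k i j =
        c * (∑ i ∈ s, σ i) ^ 2 + ∑ i ∈ s, ∑ j ∈ s, σ i * σ j * (k i j - c) := by
      have : (∑ i ∈ s, σ i) ^ 2 = ∑ i ∈ s, ∑ j ∈ s, σ i * σ j := by
        rw [sq, Finset.sum_mul_sum]
      rw [this, Finset.mul_sum, ← Finset.sum_add_distrib]
      apply Finset.sum_congr rfl
      intro i _
      rw [Finset.mul_sum, ← Finset.sum_add_distrib]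
      apply Finset.sum_congr rfl
      intro j _
      ring
    let A := s.filter fun j => j = i₀ ∨ c < k i₀ j
    let B := s.filter fun j => ¬ (j = i₀ ∨ c < k i₀ j)
    have hAB : A ∪ B = s := Finset.filter_union_filter_not_eq _ _
    have hdisj : Disjoint A B := Finset.disjoint_filter_filter_not _ _ _
    have hi₀A : i₀ ∈ A := by
      exact Finset.mem_filter.mpr ⟨hmem.1, Or.inl rfl⟩
    have hcross : ∀ i ∈ A, ∀ j ∈ B, k i j = c := by
      intro i hi j hj
      simp only [A, B, Finset.mem_filter, not_or, not_lt] at hi hj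
      obtain ⟨his, hi⟩ := hi
      obtain ⟨hjs, hj1, hj2⟩ := hj
      have h1 : k i₀ j = c := le_antisymm hj2 (hmin' _ hmem.1 _ hjs)
      rcases hi with rfl | hi
      · exact h1
      · have h2 := hu i₀ j i
        rw [h1] at h2
        rcases min_le_iff.mp h2 with h3 | h3
        · exact absurd h3 (not_le.mpr hi)
        · exact le_antisymm h3 (hmin' _ his _ hjs)
    have hcard : A.card + B.card = s.card := by
      rw [← Finset.card_union_of_disjoint hdisj, hAB]
    have hApos : 0 < A.card := Finset.card_pos.mpr ⟨i₀, hi₀A⟩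
    by_cases hB : B = ∅
    · -- then `s = {i₀}`
      have hall : ∀ j ∈ s, j = i₀ := by
        intro j hj
        have hjA : j ∈ A := by
          rw [← hAB, hB, Finset.union_empty] at hj
          exact hj
        have hj₀A : j₀ ∈ A := by
          have := hmem.2
          rw [← hAB, hB, Finset.union_empty] at this
          exact this
        simp only [A, Finset.mem_filter] at hjA hj₀A
        have hii : k i₀ i₀ = c := by
          rcases hj₀A.2 with h | h
          · rw [hcdef, h]
          · exact absurd h (lt_irrefl _)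
        rcases hjA.2 with h | h
        · exact h
        · have := hdiag i₀ j
          rw [hii] at this
          exact absurd h (not_lt.mpr this)
      have hs1 : s = {i₀} := by
        apply Finset.eq_singleton_iff_unique_mem.mpr
        exact ⟨hmem.1, hall⟩
      rw [hs1]
      simp only [Finset.sum_singleton]
      have : 0 ≤ k i₀ i₀ := h0 _ hmem.1 _ hmem.1
      have h2 : 0 ≤ σ i₀ * σ i₀ := mul_self_nonneg _
      exact mul_nonneg h2 this
    · have hBpos : 0 < B.card := Finset.card_pos.mpr (Finset.nonempty_iff_ne_empty.mpr hB)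
      have hsum : ∑ i ∈ s, ∑ j ∈ s, σ i * σ j * (k i j - c) =
          ∑ i ∈ A, ∑ j ∈ A, σ i * σ j * (k i j - c) +
            ∑ i ∈ B, ∑ j ∈ B, σ i * σ j * (k i j - c) := by
        rw [← hAB, Finset.sum_union hdisj]
        congr 1
        · apply Finset.sum_congr rfl
          intro i hi
          rw [Finset.sum_union hdisj]
          have : ∑ j ∈ B, σ i * σ j * (k i j - c) = 0 := by
            apply Finset.sum_eq_zero
            intro j hj
            rw [hcross i hi j hj]
            ring
          rw [this, add_zero]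
        · apply Finset.sum_congr rfl
          intro i hi
          rw [Finset.sum_union hdisj]
          have : ∑ j ∈ A, σ i * σ j * (k i j - c) = 0 := by
            apply Finset.sum_eq_zero
            intro j hj
            rw [hs i j, hcross j hj i hi]
            ring
          rw [this, zero_add]
      have hs' : ∀ i j, k i j - c = k j i - c := fun i j => by rw [hs i j]
      have hu' : ∀ i j l, min (k i l - c) (k l j - c) ≤ k i j - c := by
        intro i j l
        rw [min_sub_sub_right]
        exact sub_le_sub_right (hu i j l) c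
      have hAs : A ⊆ s := Finset.filter_subset _ _
      have hBs : B ⊆ s := Finset.filter_subset _ _
      have h1 := ih A (fun i j => k i j - c) σ (by omega) hs' hu'
        (fun i hi j hj => sub_nonneg.mpr (hmin' i (hAs hi) j (hAs hj)))
      have h2 := ih B (fun i j => k i j - c) σ (by omega) hs' hu'
        (fun i hi j hj => sub_nonneg.mpr (hmin' i (hBs hi) j (hBs hj)))
      rw [hsplit, hsum]
      have h3 : 0 ≤ c * (∑ i ∈ s, σ i) ^ 2 := mul_nonneg hc0 (sq_nonneg _)
      linarith

variable [Fintype ι]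

/-- The nonnegative kernel version on a finite type. -/
lemma psd_univ (k : ι → ι → ℝ) (σ : ι → ℝ)
    (hs : ∀ i j, k i j = k j i) (hu : ∀ i j l, min (k i l) (k l j) ≤ k i j)
    (h0 : ∀ i j, 0 ≤ k i j) :
    0 ≤ ∑ i, ∑ j, σ i * σ j * k i j :=
  psd _ Finset.univ k σ le_rfl hs hu fun i _ j _ => h0 i j

/-- The version for signed weights of mass zero. -/
lemma psd_zero (k : ι → ι → ℝ) (σ : ι → ℝ) (c : ℝ) (hσ : ∑ i, σ i = 0)
    (hs : ∀ i j, k i j = k j i) (hu : ∀ i j l, min (k i l) (k l j) ≤ k i j)
    (h0 : ∀ i j, c ≤ k i j) :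
    0 ≤ ∑ i, ∑ j, σ i * σ j * k i j := by
  have h := psd_univ (fun i j => k i j - c) σ (fun i j => by simp only [hs i j])
    (fun i j l => by
      simp only [min_sub_sub_right]
      exact sub_le_sub_right (hu i j l) c) (fun i j => sub_nonneg.mpr (h0 i j))
  have h2 : ∑ i, ∑ j, σ i * σ j * (k i j - c) =
      ∑ i, ∑ j, σ i * σ j * k i j - c * (∑ i, σ i) ^ 2 := by
    have : (∑ i, σ i) ^ 2 = ∑ i, ∑ j, σ i * σ j := by
      rw [sq, Finset.sum_mul_sum]
    rw [this, Finset.mul_sum, ← Finset.sum_sub_distrib]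
    apply Finset.sum_congr rfl
    intro i _
    rw [Finset.mul_sum, ← Finset.sum_sub_distrib]
    apply Finset.sum_congr rfl
    intro j _
    ring
  rw [h2, hσ] at h
  simpa using h

/-- Cauchy-Schwarz for an ultrametric kernel. -/
lemma psd_cs (k : Option ι → Option ι → ℝ) (σ : ι → ℝ) (L : ℝ) (hL : 0 < L)
    (hs : ∀ i j, k i j = k j i) (hu : ∀ i j l, min (k i l) (k l j) ≤ k i j)
    (h0 : ∀ i j, 0 ≤ k i j) (hL' : k none none = L) :
    (∑ i, σ i * k (some i) none) ^ 2 / L ≤ ∑ i, ∑ j, σ i * σ j * k (some i) (some j) := by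
  set U := ∑ i, σ i * k (some i) none with hU
  have h := psd_univ k (fun i => i.elim (-(U / L)) σ) hs hu h0
  simp only [Fintype.sum_option, Option.elim_none, Option.elim_some, hL'] at h
  have h1 : ∑ x, -(U / L) * σ x * k none (some x) = -(U / L) * U := by
    rw [hU, Finset.mul_sum]
    apply Finset.sum_congr rfl
    intro i _
    rw [hs none (some i)]
    ring
  have h2 : ∑ x, (σ x * -(U / L) * k (some x) none + ∑ y, σ x * σ y * k (some x) (some y)) =
      -(U / L) * U + ∑ x, ∑ y, σ x * σ y * k (some x) (some y) := by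
    rw [Finset.sum_add_distrib]
    congr 1
    rw [hU, Finset.mul_sum]
    apply Finset.sum_congr rfl
    intro i _
    ring
  rw [h1, h2] at h
  have h3 : -(U / L) * -(U / L) * L = U ^ 2 / L := by
    field_simp
  have h4 : -(U / L) * U = - (U ^ 2 / L) := by
    field_simp
  rw [h3, h4] at h
  linarith

/-- Truncation of a kernel to a window. -/
noncomputable def win (s₁ s₂ x : ℝ) : ℝ := max s₁ (min x s₂) - s₁

lemma win_nonneg (s₁ s₂ x : ℝ) : 0 ≤ win s₁ s₂ x := sub_nonneg.mpr (le_max_left _ _)

lemma win_mono (s₁ s₂ : ℝ) : Monotone (win s₁ s₂) := by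
  intro x y h
  unfold win
  apply sub_le_sub_right
  exact max_le_max le_rfl (min_le_min h le_rfl)

lemma win_compl_mono (s₁ s₂ : ℝ) (h12 : s₁ ≤ s₂) : Monotone fun x => x - win s₁ s₂ x := by
  intro x y h
  show x - win s₁ s₂ x ≤ y - win s₁ s₂ y
  unfold win
  rcases le_total x s₁ with h1 | h1 <;> rcases le_total x s₂ with h2 | h2 <;>
    rcases le_total y s₁ with h3 | h3 <;> rcases le_total y s₂ with h4 | h4 <;>
    simp only [min_eq_left, min_eq_right, max_eq_left, max_eq_right, h1, h2, h3, h4, h12] <;>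
    linarith

lemma win_le (s₁ s₂ x : ℝ) (h12 : s₁ ≤ s₂) : win s₁ s₂ x ≤ s₂ - s₁ := by
  unfold win
  apply sub_le_sub_right
  exact max_le h12 (min_le_right _ _)

lemma win_top (s₁ s₂ x : ℝ) (h12 : s₁ ≤ s₂) (hx : s₂ ≤ x) : win s₁ s₂ x = s₂ - s₁ := by
  unfold win
  rw [min_eq_right hx, max_eq_right h12]

lemma win_bot (s₁ s₂ x : ℝ) (hx : x ≤ s₁) : win s₁ s₂ x = 0 := by
  unfold win
  rw [max_eq_left ((min_le_left _ _).trans hx), sub_self]

lemma min_mono {g : ℝ → ℝ} (hg : Monotone g) (x y : ℝ) : min (g x) (g y) = g (min x y) := by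
  rcases le_total x y with h | h
  · rw [min_eq_left h, min_eq_left (hg h)]
  · rw [min_eq_right h, min_eq_right (hg h)]

/-- The energy of a weight of mass zero dominates the square of a truncated potential. -/
lemma energy_test (k : Option ι → Option ι → ℝ) (σ : ι → ℝ) (c s₁ s₂ : ℝ) (h12 : s₁ < s₂)
    (hσ : ∑ i, σ i = 0)
    (hs : ∀ i j, k i j = k j i) (hu : ∀ i j l, min (k i l) (k l j) ≤ k i j)
    (h0 : ∀ i j, c ≤ k i j) (htop : s₂ ≤ k none none) :
    (∑ i, σ i * win s₁ s₂ (k (some i) none)) ^ 2 / (s₂ - s₁) ≤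
      ∑ i, ∑ j, σ i * σ j * k (some i) (some j) := by
  have hL : 0 < s₂ - s₁ := sub_pos.mpr h12
  have h1 := psd_cs (fun i j => win s₁ s₂ (k i j)) σ (s₂ - s₁) hL
    (fun i j => by simp only [hs i j])
    (fun i j l => by
      simp only [min_mono (win_mono s₁ s₂)]
      exact win_mono s₁ s₂ (hu i j l))
    (fun i j => win_nonneg _ _ _) (win_top _ _ _ h12.le htop)
  have h2 := psd_zero (fun i j : ι => k (some i) (some j) - win s₁ s₂ (k (some i) (some j))) σ
    (c - win s₁ s₂ c) hσ
    (fun i j => by simp only [hs (some i) (some j)])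
    (fun i j l => by
      have hm := win_compl_mono s₁ s₂ h12.le
      have h3 := min_mono hm (k (some i) (some l)) (k (some l) (some j))
      exact h3.le.trans (hm (hu (some i) (some j) (some l))))
    (fun i j => win_compl_mono s₁ s₂ h12.le (h0 _ _))
  have h3 : ∑ i, ∑ j, σ i * σ j * k (some i) (some j) =
      ∑ i, ∑ j, σ i * σ j * (k (some i) (some j) - win s₁ s₂ (k (some i) (some j))) +
        ∑ i, ∑ j, σ i * σ j * win s₁ s₂ (k (some i) (some j)) := by
    rw [← Finset.sum_add_distrib]
    apply Finset.sum_congr rfl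
    intro i _
    rw [← Finset.sum_add_distrib]
    apply Finset.sum_congr rfl
    intro j _
    ring
  rw [h3]
  linarith

end Pool.Agent.TH951.W.UG
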