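import Pool.Agent.TH951.W.UG.A1
import Pool.Agent.TH951.W.UG.A6

/-!
# The system attached to a bad place
-/

namespace Pool.Agent.TH951.W.UG

open Pool.Agent.TH951.W.UB Finset Polynomial

universe u

lemma exists_root_family {Ω : Type*} [Field Ω] [IsAlgClosed Ω] (g : Polynomial Ω) :
    ∃ ζ : Fin g.natDegree → Ω, ∀ z, g.eval z = g.leadingCoeff * ∏ l, (z - ζ l) := by
  have hs := IsAlgClosed.splits g
  have hcard : g.roots.toList.length = g.natDegree := by
    rw [Multiset.length_toList]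
    exact hs.natDegree_eq_card_roots.symm
  refine ⟨fun i => g.roots.toList[(finCongr hcard.symm i).1], fun z => ?_⟩
  rw [hs.eval_eq_prod_roots z]
  congr 1
  have h1 : ∏ l : Fin g.natDegree, (z - g.roots.toList[(finCongr hcard.symm l).1]) =
      ∏ l : Fin g.roots.toList.length, (z - g.roots.toList[l.1]) :=
    Equiv.prod_comp (finCongr hcard.symm) fun l => (z - g.roots.toList[l.1])
  rw [h1]
  have h2 := Fin.prod_univ_fun_getElem g.roots.toList (fun a => z - a)
  rw [h2, ← Multiset.prod_coe, ← Multiset.map_coe, Multiset.coe_toList]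

lemma dense_of_algClosed {Ω : Type*} [NormedField Ω] [IsAlgClosed Ω] (w₀ : Ω) (hw : 1 < ‖w₀‖)
    (a b : ℝ) (ha : 0 < a) (hab : a < b) : ∃ w : Ω, a < ‖w‖ ∧ ‖w‖ < b := by
  have hL : 0 < Real.log ‖w₀‖ := Real.log_pos hw
  have hlog : Real.log a / Real.log ‖w₀‖ < Real.log b / Real.log ‖w₀‖ :=
    div_lt_div_of_pos_right (Real.log_lt_log ha hab) hL
  obtain ⟨q, hq1, hq2⟩ := exists_rat_btwn hlog
  obtain ⟨w, hw'⟩ := IsAlgClosed.exists_pow_nat_eq (w₀ ^ q.num) q.pos
  have hw₀ : w₀ ≠ 0 := by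
    rintro rfl
    rw [norm_zero] at hw
    linarith
  have hn : ‖w‖ ^ q.den = ‖w₀‖ ^ q.num := by
    rw [← norm_pow, hw', norm_zpow]
  have hwpos : 0 < ‖w‖ := by
    apply norm_pos_iff.mpr
    rintro rfl
    rw [zero_pow q.pos.ne'] at hw'
    exact (zpow_ne_zero _ hw₀) hw'.symm
  have hlogw : Real.log ‖w‖ = q * Real.log ‖w₀‖ := by
    have h1 := congrArg Real.log hn
    rw [Real.log_pow, Real.log_zpow] at h1
    have hden : (q.den : ℝ) ≠ 0 := by exact_mod_cast q.pos.ne'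
    have h2 : (q : ℝ) = q.num / q.den := by exact_mod_cast (Rat.num_div_den q).symm
    rw [h2]
    field_simp
    linarith
  refine ⟨w, ?_, ?_⟩
  · rw [← Real.log_lt_log_iff ha hwpos, hlogw]
    rwa [div_lt_iff₀ hL] at hq1
  · rw [← Real.log_lt_log_iff hwpos (ha.trans hab), hlogw]
    rwa [lt_div_iff₀ hL] at hq2

end Pool.Agent.TH951.W.UG
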